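import Mathlib
import Pool.Agent.Helper7.JQ.Stm

/-!
# Ramanujan sums (module of helper21 for helper7)
-/

set_option autoImplicit false

namespace Pool.Agent.Helper21.JQ

open Finset Pool.Agent.Helper7.JQ

/-- The sum of all `n`-th roots of unity. -/
lemma sum_nthRoots {n : ℕ} (hn : 0 < n) :
    ∑ z ∈ Polynomial.nthRootsFinset n (1 : ℂ), z = if n = 1 then 1 else 0 := by
  obtain ⟨ζ, hζ⟩ : ∃ ζ : ℂ, IsPrimitiveRoot ζ n := ⟨_, Complex.isPrimitiveRoot_exp n hn.ne'⟩
  have h1 : ∑ z ∈ Polynomial.nthRootsFinset n (1 : ℂ), z = ∑ i ∈ range n, ζ ^ i := by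
    symm
    refine Finset.sum_bij (fun i _ => ζ ^ i) ?_ ?_ ?_ ?_
    · intro i _
      rw [Polynomial.mem_nthRootsFinset hn, ← pow_mul, mul_comm, pow_mul, hζ.pow_eq_one, one_pow]
    · intro i hi j hj hij
      exact hζ.pow_inj (Finset.mem_range.mp hi) (Finset.mem_range.mp hj) hij
    · intro z hz
      rw [Polynomial.mem_nthRootsFinset hn] at hz
      have : NeZero n := ⟨hn.ne'⟩
      obtain ⟨i, hi, h⟩ := hζ.eq_pow_of_pow_eq_one hz
      exact ⟨i, Finset.mem_range.mpr hi, h⟩
    · intro i _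
      rfl
  rw [h1]
  split_ifs with h
  · subst h; simp
  · exact hζ.geom_sum_eq_zero (by omega)

lemma sum_primitive {n : ℕ} (hn : 0 < n) :
    ∑ z ∈ primitiveRoots n ℂ, z = (ArithmeticFunction.moebius n : ℂ) := by
  classical
  have h := (ArithmeticFunction.sum_eq_iff_sum_mul_moebius_eq (R := ℂ)
    (f := fun n => ∑ z ∈ primitiveRoots n ℂ, z) (g := fun n => if n = 1 then 1 else 0)).mp ?_ n hn
  · rw [← h]
    rw [Finset.sum_eq_single_of_mem (n, 1) (by simp [hn.ne'])]
    · simp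
    · rintro ⟨a, b⟩ hab hne
      simp only
      rw [if_neg, mul_zero]
      rintro rfl
      apply hne
      rw [Nat.mem_divisorsAntidiagonal] at hab
      simp at hab
      rw [hab.1]
  · intro m hm
    have : NeZero m := ⟨hm.ne'⟩
    rw [← sum_nthRoots hm, IsPrimitiveRoot.nthRoots_one_eq_biUnion_primitiveRoots,
      Finset.sum_biUnion]
    intro i _ j _ hij
    exact IsPrimitiveRoot.disjoint hij

/-- the sum over the residues prime to the order. -/
lemma sum_cop_order (lam : ℂ) (ho : 0 < orderOf lam) :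
    ∑ a ∈ cop (orderOf lam), lam ^ a = (ArithmeticFunction.moebius (orderOf lam) : ℂ) := by
  have hp := IsPrimitiveRoot.orderOf lam
  rw [← sum_primitive ho]
  refine Finset.sum_bij (fun i _ => lam ^ i) ?_ ?_ ?_ ?_
  · intro i hi
    rw [mem_primitiveRoots ho]
    exact hp.pow_of_coprime i (Finset.mem_filter.mp hi).2
  · intro i hi j hj hij
    exact hp.pow_inj (Finset.mem_range.mp (Finset.mem_filter.mp hi).1)
      (Finset.mem_range.mp (Finset.mem_filter.mp hj).1) hij
  · intro z hz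
    rw [mem_primitiveRoots ho] at hz
    have : NeZero (orderOf lam) := ⟨ho.ne'⟩
    obtain ⟨i, hi, hc, h⟩ := (hp.isPrimitiveRoot_iff).mp hz
    exact ⟨i, Finset.mem_filter.mpr ⟨Finset.mem_range.mpr hi, hc⟩, h⟩
  · intro i _
    rfl

/-- sums over units. -/
lemma sum_cop_units {M : ℕ} [NeZero M] (f : ℕ → ℂ) :
    ∑ a ∈ cop M, f a = ∑ u : (ZMod M)ˣ, f (u : ZMod M).val := by
  symm
  refine Finset.sum_bij (fun u _ => (u : ZMod M).val) ?_ ?_ ?_ ?_
  · intro u _
    exact Finset.mem_filter.mpr ⟨Finset.mem_range.mpr (ZMod.val_lt _), ZMod.val_coe_unit_coprime u⟩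
  · intro u _ v _ h
    exact Units.ext (ZMod.val_injective M h)
  · intro a ha
    obtain ⟨h1, h2⟩ := Finset.mem_filter.mp ha
    refine ⟨ZMod.unitOfCoprime a h2, Finset.mem_univ _, ?_⟩
    rw [ZMod.coe_unitOfCoprime, ZMod.val_natCast, Nat.mod_eq_of_lt (Finset.mem_range.mp h1)]
  · intro u _
    rfl

lemma card_cop {M : ℕ} : (cop M).card = M.totient := by
  rw [cop, Nat.totient]
  congr 1
  ext a
  simp only [Finset.mem_filter]
  rw [Nat.coprime_comm]

lemma orderOf_pos_of {M : ℕ} (hM : 0 < M) {lam : ℂ} (h : lam ^ M = 1) : 0 < orderOf lam :=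
  orderOf_pos_iff.mpr (isOfFinOrder_iff_pow_eq_one.mpr ⟨M, hM, h⟩)

theorem s_RAM : S_RAM := by
  intro M hM lam hlam
  have ho := orderOf_pos_of hM hlam
  have hdvd : orderOf lam ∣ M := orderOf_dvd_of_pow_eq_one hlam
  have : NeZero M := ⟨hM.ne'⟩
  have : NeZero (orderOf lam) := ⟨ho.ne'⟩
  set o := orderOf lam with hodef
  set φ := ZMod.unitsMap hdvd with hφ
  have hval : ∀ u : (ZMod M)ˣ, lam ^ (u : ZMod M).val = lam ^ ((φ u : (ZMod o)ˣ) : ZMod o).val := by
    intro u
    have h : ((φ u : (ZMod o)ˣ) : ZMod o).val = (u : ZMod M).val % o := by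
      rw [hφ, ZMod.unitsMap_val, ZMod.cast_eq_val, ZMod.val_natCast]
    rw [h, hodef, pow_mod_orderOf]
  have hcard : ∀ v : (ZMod o)ˣ, (univ.filter (fun u => φ u = v)).card = (univ.filter (fun u => φ u = 1)).card := by
    intro v
    exact MonoidHom.card_fiber_eq_of_mem_range φ (ZMod.unitsMap_surjective hdvd v)
      (ZMod.unitsMap_surjective hdvd 1)
  set c := (univ.filter (fun u => φ u = 1)).card with hc
  have hfib : ∀ g : (ZMod o)ˣ → ℂ, ∑ u : (ZMod M)ˣ, g (φ u) = (c : ℂ) * ∑ v, g v := by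
    intro g
    rw [← Finset.sum_fiberwise (s := univ) (g := fun u => φ u), Finset.mul_sum]
    refine Finset.sum_congr rfl fun v _ => ?_
    rw [Finset.sum_congr rfl (g := fun _ => g v) (fun u hu => by rw [(Finset.mem_filter.mp hu).2]),
      Finset.sum_const, hcard v, nsmul_eq_mul]
  have h1 := hfib (fun _ => 1)
  simp only [Finset.sum_const, Finset.card_univ, ZMod.card_units_eq_totient, nsmul_eq_mul, mul_one]
    at h1
  rw [sum_cop_units, Finset.sum_congr rfl fun u _ => hval u,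
    hfib (fun v => lam ^ ((v : (ZMod o)ˣ) : ZMod o).val), ← sum_cop_units (fun a => lam ^ a),
    sum_cop_order lam ho, h1]
  ring

/-- normalised Ramanujan sum -/
noncomputable def cc (x : ℂ) : ℝ := (ArithmeticFunction.moebius (orderOf x) : ℝ) / (orderOf x).totient

lemma sum_eq {M : ℕ} (hM : 0 < M) {x : ℂ} (hx : x ^ M = 1) :
    ∑ a ∈ cop M, x ^ a = (M.totient : ℂ) * (cc x : ℂ) := by
  have h := s_RAM M hM x hx
  have ho : ((orderOf x).totient : ℂ) ≠ 0 := by
    have := Nat.totient_pos.mpr (orderOf_pos_of hM hx)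
    exact_mod_cast this.ne'
  rw [cc]
  push_cast
  rw [← mul_right_inj' ho, h]
  field_simp

lemma cc_one : cc 1 = 1 := by simp [cc]

lemma orderOf_inv' (x : ℂ) : orderOf x⁻¹ = orderOf x := by
  apply Nat.dvd_antisymm
  · exact orderOf_dvd_of_pow_eq_one (by rw [inv_pow, pow_orderOf_eq_one, inv_one])
  · refine orderOf_dvd_of_pow_eq_one ?_
    have h := pow_orderOf_eq_one x⁻¹
    rw [inv_pow] at h
    exact inv_eq_one.mp h

lemma cc_inv (x : ℂ) : cc x⁻¹ = cc x := by rw [cc, cc, orderOf_inv']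

lemma abs_moebius_le (n : ℕ) : |(ArithmeticFunction.moebius n : ℝ)| ≤ 1 := by
  have h := ArithmeticFunction.abs_moebius_le_one (n := n)
  have h2 : ((|ArithmeticFunction.moebius n| : ℤ) : ℝ) ≤ ((1 : ℤ) : ℝ) := by exact_mod_cast h
  rw [Int.cast_abs] at h2
  simpa using h2

lemma abs_cc_le {x : ℂ} {m : ℕ} (hm : 0 < m) (h : m ≤ (orderOf x).totient) : |cc x| ≤ 1 / m := by
  have h1 : (0 : ℝ) < m := by exact_mod_cast hm
  have h2 : (m : ℝ) ≤ (orderOf x).totient := by exact_mod_cast h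
  rw [cc, abs_div, abs_of_pos (h1.trans_le h2 : (0 : ℝ) < (orderOf x).totient)]
  exact div_le_div₀ zero_le_one (abs_moebius_le _) h1 h2

lemma cc_le_one (x : ℂ) : cc x ≤ 1 := by
  by_cases h : orderOf x = 0
  · rw [cc, h]; simp
  · have := abs_cc_le (x := x) (m := 1) one_pos (Nat.totient_pos.mpr (Nat.pos_of_ne_zero h))
    have h2 := (abs_le.mp this).2
    simpa using h2

lemma totient_ge {o p : ℕ} (ho : 0 < o) (hp : p.Prime) (h5 : 5 ≤ p) (hd : p ∣ o) : 4 ≤ o.totient := by
  have h1 := Nat.totient_dvd_of_dvd hd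
  rw [Nat.totient_prime hp] at h1
  have h2 := Nat.le_of_dvd (Nat.totient_pos.mpr ho) h1
  omega

lemma cases_o {o : ℕ} (_ : 0 < o) :
    (∃ p, p.Prime ∧ 5 ≤ p ∧ p ∣ o) ∨ ¬ Squarefree o ∨ o ∣ 6 := by
  by_cases h : ∃ p, p.Prime ∧ 5 ≤ p ∧ p ∣ o
  · exact Or.inl h
  right
  by_cases hs : Squarefree o
  · right
    push Not at h
    rw [Nat.dvd_iff_prime_pow_dvd_dvd]
    intro p k hp hpk
    rcases Nat.eq_zero_or_pos k with rfl | hk
    · simp
    have hpo : p ∣ o := (dvd_pow_self p hk.ne').trans hpk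
    have hk1 : k = 1 := by
      by_contra hne
      have h2 : p * p ∣ o := by
        rw [← sq]
        exact (pow_dvd_pow p (by omega)).trans hpk
      have := hs p h2
      exact hp.one_lt.ne' (Nat.isUnit_iff.mp this)
    subst hk1
    rw [pow_one]
    have h5 : p < 5 := by
      by_contra h5
      exact h p hp (by omega) hpo
    have h2 := hp.two_le
    interval_cases p
    · norm_num
    · norm_num
    · exact absurd hp (by norm_num)
  · exact Or.inl hs

lemma cc_of_not_sq {x : ℂ} (h : ¬ Squarefree (orderOf x)) : cc x = 0 := by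
  rw [cc, ArithmeticFunction.moebius_eq_zero_of_not_squarefree h]; simp

lemma cc_three {x : ℂ} (h : orderOf x = 3) : cc x = -1 / 2 := by
  rw [cc, h, ArithmeticFunction.moebius_apply_prime Nat.prime_three, Nat.totient_prime Nat.prime_three]
  norm_num

lemma cc_two {x : ℂ} (h : orderOf x = 2) : cc x = -1 := by
  rw [cc, h, ArithmeticFunction.moebius_apply_prime Nat.prime_two, Nat.totient_prime Nat.prime_two]
  norm_num

lemma eq_neg_one {x : ℂ} (h : orderOf x = 2) : x = -1 := by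
  have h1 : x ^ 2 = 1 := by rw [← h]; exact pow_orderOf_eq_one x
  rcases sq_eq_one_iff.mp h1 with h2 | h2
  · rw [h2, orderOf_one] at h; omega
  · exact h2

/-- odd modulus -/
lemma bd_odd {M : ℕ} (hM : 0 < M) (hodd : ¬ 2 ∣ M) {x : ℂ} (hx : x ^ M = 1) (hx1 : x ≠ 1) :
    -1 / 2 ≤ cc x ∧ cc x ≤ 1 / 4 := by
  have ho := orderOf_pos_of hM hx
  have hd := orderOf_dvd_of_pow_eq_one hx
  have h1 : orderOf x ≠ 1 := fun h => hx1 (orderOf_eq_one_iff.mp h)
  rcases cases_o ho with ⟨p, hp, h5, hpo⟩ | h | h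
  · have := abs_le.mp (abs_cc_le (x := x) (by norm_num : 0 < 4) (totient_ge ho hp h5 hpo))
    norm_num at this
    constructor <;> linarith [this.1, this.2]
  · rw [cc_of_not_sq h]; norm_num
  · have h6 : orderOf x ≤ 6 := Nat.le_of_dvd (by norm_num) h
    have h2 : ¬ 2 ∣ orderOf x := fun h' => hodd (h'.trans hd)
    have h3 : orderOf x = 3 := by
      generalize orderOf x = o at *
      interval_cases o <;> omega
    rw [cc_three h3]; norm_num

/-- modulus prime to 3 -/
lemma bd_three {M : ℕ} (hM : 0 < M) (h3 : ¬ 3 ∣ M) {x : ℂ} (hx : x ^ M = 1) (hx1 : x ≠ 1) :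
    x = -1 ∧ cc x = -1 ∨ -1 / 4 ≤ cc x ∧ cc x ≤ 1 / 4 := by
  have ho := orderOf_pos_of hM hx
  have hd := orderOf_dvd_of_pow_eq_one hx
  have h1 : orderOf x ≠ 1 := fun h => hx1 (orderOf_eq_one_iff.mp h)
  rcases cases_o ho with ⟨p, hp, h5, hpo⟩ | h | h
  · right
    have := abs_le.mp (abs_cc_le (x := x) (by norm_num : 0 < 4) (totient_ge ho hp h5 hpo))
    norm_num at this
    constructor <;> linarith [this.1, this.2]
  · right
    rw [cc_of_not_sq h]; norm_num
  · left
    have h6 : orderOf x ≤ 6 := Nat.le_of_dvd (by norm_num) h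
    have h2 : ¬ 3 ∣ orderOf x := fun h' => h3 (h'.trans hd)
    have h3 : orderOf x = 2 := by
      generalize orderOf x = o at *
      interval_cases o <;> omega
    exact ⟨eq_neg_one h3, cc_two h3⟩

/-- modulus prime to 6 -/
lemma bd_six {M : ℕ} (hM : 0 < M) (h6 : Nat.Coprime M 6) {x : ℂ} (hx : x ^ M = 1) (hx1 : x ≠ 1) :
    -1 / 4 ≤ cc x ∧ cc x ≤ 1 / 16 := by
  have ho := orderOf_pos_of hM hx
  have hd := orderOf_dvd_of_pow_eq_one hx
  have h1 : orderOf x ≠ 1 := fun h => hx1 (orderOf_eq_one_iff.mp h)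
  have hc : Nat.Coprime (orderOf x) 6 := Nat.Coprime.coprime_dvd_left hd h6
  have key : ∀ o : ℕ, 0 < o → o ≠ 1 → Nat.Coprime o 6 → Squarefree o → ∃ p, p.Prime ∧ 5 ≤ p ∧ p ∣ o := by
    intro o ho h1 hc hs
    rcases cases_o ho with h | h | h
    · exact h
    · exact absurd hs h
    · exact absurd (Nat.eq_one_of_dvd_coprimes hc dvd_rfl h) h1
  by_cases hs : Squarefree (orderOf x)
  · obtain ⟨p, hp, h5, hpo⟩ := key _ ho h1 hc hs
    have h4 := totient_ge ho hp h5 hpo
    have hb := abs_le.mp (abs_cc_le (x := x) (by norm_num : 0 < 4) h4)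
    norm_num at hb
    refine ⟨by linarith [hb.1], ?_⟩
    obtain ⟨o', ho'⟩ := hpo
    have hpos : (0 : ℝ) < ((orderOf x).totient : ℝ) := by
      exact_mod_cast (by omega : 0 < (orderOf x).totient)
    rw [ho'] at hs
    have hcop : Nat.Coprime p o' := Nat.coprime_of_squarefree_mul hs
    have hso' : Squarefree o' := hs.squarefree_of_dvd (dvd_mul_left _ _)
    have ho'pos : 0 < o' := by
      rcases Nat.eq_zero_or_pos o' with h | h
      · rw [h, mul_zero] at ho'; omega
      · exact h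
    by_cases hone : o' = 1
    · rw [hone, mul_one] at ho'
      rw [cc, ho', ArithmeticFunction.moebius_apply_prime hp]
      push_cast
      rw [div_le_iff₀ (by rw [← ho']; exact hpos)]
      have : (0 : ℝ) ≤ (p.totient : ℝ) := Nat.cast_nonneg _
      linarith
    · obtain ⟨q, hq, hq5, hqo⟩ := key o' ho'pos hone
        (Nat.Coprime.coprime_dvd_left (Dvd.intro_left p ho'.symm) hc) hso'
      have h7 := totient_ge ho'pos hq hq5 hqo
      have h8 : 16 ≤ (orderOf x).totient := by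
        rw [ho', Nat.totient_mul hcop, Nat.totient_prime hp]
        have : 4 ≤ p - 1 := by omega
        nlinarith
      have := abs_le.mp (abs_cc_le (x := x) (by norm_num : 0 < 16) h8)
      norm_num at this
      linarith [this.2]
  · rw [cc_of_not_sq hs]; norm_num

/-- modulus a power of 3 -/
lemma bd_pow {k : ℕ} {x : ℂ} (hx : x ^ 3 ^ k = 1) (hx1 : x ≠ 1) :
    (orderOf x = 3 ∧ cc x = -1 / 2) ∨ (orderOf x ≠ 3 ∧ cc x = 0) := by
  have hd := orderOf_dvd_of_pow_eq_one hx
  obtain ⟨j, _, hj⟩ := (Nat.dvd_prime_pow Nat.prime_three).mp hd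
  rcases Nat.lt_or_ge j 2 with h | h
  · interval_cases j
    · exact absurd (orderOf_eq_one_iff.mp (by simpa using hj)) hx1
    · left
      have h3 : orderOf x = 3 := by simpa using hj
      exact ⟨h3, cc_three h3⟩
  · right
    have h9 : 3 * 3 ∣ orderOf x := by
      rw [hj, ← sq]
      exact pow_dvd_pow 3 h
    refine ⟨?_, ?_⟩
    · intro h3
      rw [h3] at h9
      omega
    · apply cc_of_not_sq
      intro hs
      have := hs 3 h9
      rw [Nat.isUnit_iff] at this
      omega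

lemma re_sum2 {M : ℕ} (hM : 0 < M) {s t : ℂ} (hs : s ^ M = 1) (ht : t ^ M = 1) :
    (∑ a ∈ cop M, (1 - s ^ a) * (1 - t ^ a)).re = M.totient * (1 - cc s - cc t + cc (s * t)) := by
  have h : ∑ a ∈ cop M, (1 - s ^ a) * (1 - t ^ a) =
      ((M.totient * (1 - cc s - cc t + cc (s * t)) : ℝ) : ℂ) := by
    have h1 : ∑ a ∈ cop M, (1 - s ^ a) * (1 - t ^ a) = ∑ a ∈ cop M, (1 : ℂ) - ∑ a ∈ cop M, s ^ a -
        ∑ a ∈ cop M, t ^ a + ∑ a ∈ cop M, (s * t) ^ a := by
      rw [← Finset.sum_sub_distrib, ← Finset.sum_sub_distrib, ← Finset.sum_add_distrib]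
      refine Finset.sum_congr rfl fun a _ => ?_
      rw [mul_pow]; ring
    rw [h1, sum_eq hM hs, sum_eq hM ht, sum_eq hM (by rw [mul_pow, hs, ht, one_mul]), Finset.sum_const,
      card_cop, nsmul_eq_mul]
    push_cast
    ring
  rw [h, Complex.ofReal_re]

lemma re_sum3 {M : ℕ} (hM : 0 < M) {s t u : ℂ} (hs : s ^ M = 1) (ht : t ^ M = 1) (hu : u ^ M = 1) :
    (∑ a ∈ cop M, (1 - s ^ a) * (1 - t ^ a) * (1 - u ^ a)).re =
      M.totient * (1 - cc s - cc t - cc u + cc (s * t) + cc (s * u) + cc (t * u) - cc (s * t * u)) := by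
  have h : ∑ a ∈ cop M, (1 - s ^ a) * (1 - t ^ a) * (1 - u ^ a) =
      ((M.totient * (1 - cc s - cc t - cc u + cc (s * t) + cc (s * u) + cc (t * u) -
        cc (s * t * u)) : ℝ) : ℂ) := by
    have h1 : ∑ a ∈ cop M, (1 - s ^ a) * (1 - t ^ a) * (1 - u ^ a) = ∑ a ∈ cop M, (1 : ℂ) -
        ∑ a ∈ cop M, s ^ a - ∑ a ∈ cop M, t ^ a - ∑ a ∈ cop M, u ^ a + ∑ a ∈ cop M, (s * t) ^ a +
        ∑ a ∈ cop M, (s * u) ^ a + ∑ a ∈ cop M, (t * u) ^ a - ∑ a ∈ cop M, (s * t * u) ^ a := by
      rw [← Finset.sum_sub_distrib, ← Finset.sum_sub_distrib, ← Finset.sum_sub_distrib,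
        ← Finset.sum_add_distrib, ← Finset.sum_add_distrib, ← Finset.sum_add_distrib,
        ← Finset.sum_sub_distrib]
      refine Finset.sum_congr rfl fun a _ => ?_
      rw [mul_pow, mul_pow, mul_pow, mul_pow, mul_pow]; ring
    rw [h1, sum_eq hM hs, sum_eq hM ht, sum_eq hM hu, sum_eq hM (x := s * t) (by rw [mul_pow, hs, ht, one_mul]),
      sum_eq hM (x := s * u) (by rw [mul_pow, hs, hu, one_mul]),
      sum_eq hM (x := t * u) (by rw [mul_pow, ht, hu, one_mul]),
      sum_eq hM (x := s * t * u) (by rw [mul_pow, mul_pow, hs, ht, hu, one_mul, one_mul]), Finset.sum_const,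
      card_cop, nsmul_eq_mul]
    push_cast
    ring
  rw [h, Complex.ofReal_re]

lemma ne_zero_of_pow {M : ℕ} (hM : 0 < M) {x : ℂ} (hx : x ^ M = 1) : x ≠ 0 := by
  rintro rfl
  rw [zero_pow hM.ne'] at hx
  exact zero_ne_one hx

theorem s_POS2 : S_POS2 := by
  intro M hM h6 s t hs ht hs1 ht1
  rw [re_sum2 hM hs ht]
  refine mul_nonneg (Nat.cast_nonneg _) ?_
  have hst : (s * t) ^ M = 1 := by rw [mul_pow, hs, ht, one_mul]
  have hs0 := ne_zero_of_pow hM hs
  by_cases h1 : s * t = 1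
  · rw [h1, cc_one]
    linarith [cc_le_one s, cc_le_one t]
  by_cases h2 : 2 ∣ M
  · have h3 : ¬ 3 ∣ M := fun h3 => h6 (by
      have := Nat.Coprime.mul_dvd_of_dvd_of_dvd (by norm_num : Nat.Coprime 2 3) h2 h3
      simpa using this)
    rcases bd_three hM h3 hst h1 with ⟨hm, hcm⟩ | hb
    · have hneg : cc t = - cc s := by
        have ht' : t = - s⁻¹ := by
          have : t = s⁻¹ * (s * t) := by rw [← mul_assoc, inv_mul_cancel₀ hs0, one_mul]
          rw [this, hm, mul_neg_one]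
        have e1 := sum_eq hM ht
        have hsi : (s⁻¹) ^ M = 1 := by rw [inv_pow, hs, inv_one]
        have e2 := sum_eq hM hsi
        rw [cc_inv] at e2
        have e3 : ∑ a ∈ cop M, t ^ a = - ∑ a ∈ cop M, s⁻¹ ^ a := by
          rw [← Finset.sum_neg_distrib]
          refine Finset.sum_congr rfl fun a ha => ?_
          have hodd : Odd a := by
            have hca := (Finset.mem_filter.mp ha).2
            rw [← Nat.not_even_iff_odd]
            intro hev
            have h22 : 2 ∣ Nat.gcd a M := Nat.dvd_gcd hev.two_dvd h2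
            rw [hca] at h22
            omega
          rw [ht', hodd.neg_pow]
        rw [e1, e2] at e3
        have hφ : (M.totient : ℂ) ≠ 0 := by
          have := Nat.totient_pos.mpr hM
          exact_mod_cast this.ne'
        have e4 : (cc t : ℂ) = ((-cc s : ℝ) : ℂ) := by
          push_cast
          apply mul_left_cancel₀ hφ
          rw [e3]; ring
        exact_mod_cast e4
      rw [hneg, hcm]
      linarith
    · have hsb : cc s ≤ 1 / 4 := by
        rcases bd_three hM h3 hs hs1 with ⟨_, h⟩ | h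
        · rw [h]; norm_num
        · exact h.2
      have htb : cc t ≤ 1 / 4 := by
        rcases bd_three hM h3 ht ht1 with ⟨_, h⟩ | h
        · rw [h]; norm_num
        · exact h.2
      linarith [hb.1]
  · have a1 := bd_odd hM h2 hs hs1
    have a2 := bd_odd hM h2 ht ht1
    have a3 := bd_odd hM h2 hst h1
    linarith [a1.2, a2.2, a3.1]

lemma pow_mul_eq {M : ℕ} {s t : ℂ} (hs : s ^ M = 1) (ht : t ^ M = 1) : (s * t) ^ M = 1 := by
  rw [mul_pow, hs, ht, one_mul]

theorem s_POS3 : S_POS3 := by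
  intro M hM s t u hs ht hu hs1 ht1 hu1
  have hM0 : 0 < M := by
    rcases hM with h | ⟨k, rfl⟩
    · exact h.1
    · positivity
  rw [re_sum3 hM0 hs ht hu]
  refine mul_nonneg (Nat.cast_nonneg _) ?_
  have hs0 := ne_zero_of_pow hM0 hs
  have ht0 := ne_zero_of_pow hM0 ht
  have hu0 := ne_zero_of_pow hM0 hu
  by_cases h1 : s * t * u = 1
  · have e1 : s * t = u⁻¹ := eq_inv_of_mul_eq_one_left h1
    have e2 : s * u = t⁻¹ := eq_inv_of_mul_eq_one_left (by rw [← h1]; ring)
    have e3 : t * u = s⁻¹ := eq_inv_of_mul_eq_one_left (by rw [← h1]; ring)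
    rw [h1, cc_one, e1, e2, e3, cc_inv, cc_inv, cc_inv]
    linarith
  rcases hM with ⟨_, h6⟩ | ⟨k, hk⟩
  · have b1 := bd_six hM0 h6 hs hs1
    have b2 := bd_six hM0 h6 ht ht1
    have b3 := bd_six hM0 h6 hu hu1
    have b4 := bd_six hM0 h6 (pow_mul_eq (pow_mul_eq hs ht) hu) h1
    have low : ∀ x y : ℂ, x ^ M = 1 → y ^ M = 1 → -1 / 4 ≤ cc (x * y) := by
      intro x y hx hy
      by_cases hxy : x * y = 1
      · rw [hxy, cc_one]; norm_num
      · exact (bd_six hM0 h6 (pow_mul_eq hx hy) hxy).1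
    linarith [b1.2, b2.2, b3.2, b4.2, low s t hs ht, low s u hs hu, low t u ht hu]
  · subst hk
    have nonpos : ∀ x : ℂ, x ^ 3 ^ k = 1 → x ≠ 1 → cc x ≤ 0 := by
      intro x hx hx1
      rcases bd_pow hx hx1 with ⟨_, h⟩ | ⟨_, h⟩ <;> rw [h] <;> norm_num
    have low : ∀ x : ℂ, x ^ 3 ^ k = 1 → -1 / 2 ≤ cc x := by
      intro x hx
      by_cases h : x = 1
      · rw [h, cc_one]; norm_num
      · rcases bd_pow hx h with ⟨_, h⟩ | ⟨_, h⟩ <;> rw [h] <;> norm_num
    have low' : ∀ x : ℂ, x ^ 3 ^ k = 1 → orderOf x ≠ 3 → 0 ≤ cc x := by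
      intro x hx hx3
      by_cases h : x = 1
      · rw [h, cc_one]; norm_num
      · rcases bd_pow hx h with ⟨h3, _⟩ | ⟨_, h⟩
        · exact absurd h3 hx3
        · rw [h]
    have n1 := nonpos s hs hs1
    have n2 := nonpos t ht ht1
    have n3 := nonpos u hu hu1
    have n4 := nonpos _ (pow_mul_eq (pow_mul_eq hs ht) hu) h1
    have hst := pow_mul_eq hs ht
    have hsu := pow_mul_eq hs hu
    have htu := pow_mul_eq ht hu
    by_cases c1 : orderOf (s * t) = 3
    · by_cases c2 : orderOf (s * u) = 3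
      · by_cases c3 : orderOf (t * u) = 3
        · -- all of order three
          have p1 : (s * t) ^ 3 = 1 := by rw [← c1]; exact pow_orderOf_eq_one _
          have p2 : (s * u) ^ 3 = 1 := by rw [← c2]; exact pow_orderOf_eq_one _
          have p3 : (t * u) ^ 3 = 1 := by rw [← c3]; exact pow_orderOf_eq_one _
          have ord : ∀ x : ℂ, x ^ 3 ^ k = 1 → x ≠ 1 → x ^ 6 = 1 → cc x = -1 / 2 := by
            intro x hx hx1 hx6
            rcases bd_pow hx hx1 with ⟨_, h⟩ | ⟨h, _⟩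
            · exact h
            · exfalso
              obtain ⟨j, _, hj⟩ := (Nat.dvd_prime_pow Nat.prime_three).mp (orderOf_dvd_of_pow_eq_one hx)
              have h6 := orderOf_dvd_of_pow_eq_one hx6
              rw [hj] at h6 h
              rcases Nat.lt_or_ge j 2 with h2 | h2
              · interval_cases j
                · exact hx1 (orderOf_eq_one_iff.mp (by simpa using hj))
                · exact h rfl
              · have : 3 ^ 2 ∣ 6 := (pow_dvd_pow 3 h2).trans h6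
                omega
          have q1 : s ^ 6 = 1 := by
            have : s ^ 6 * (t * u) ^ 3 = (s * t) ^ 3 * (s * u) ^ 3 := by ring
            rwa [p1, p2, p3, mul_one, mul_one] at this
          have q2 : t ^ 6 = 1 := by
            have : t ^ 6 * (s * u) ^ 3 = (s * t) ^ 3 * (t * u) ^ 3 := by ring
            rwa [p1, p2, p3, mul_one, mul_one] at this
          have q3 : u ^ 6 = 1 := by
            have : u ^ 6 * (s * t) ^ 3 = (s * u) ^ 3 * (t * u) ^ 3 := by ring
            rwa [p1, p2, p3, mul_one, mul_one] at this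
          rw [ord s hs hs1 q1, ord t ht ht1 q2, ord u hu hu1 q3]
          linarith [low _ hst, low _ hsu, low _ htu]
        · linarith [low _ hst, low _ hsu, low' _ htu c3]
      · linarith [low _ hst, low _ htu, low' _ hsu c2]
    · linarith [low _ hsu, low _ htu, low' _ hst c1]

end Pool.Agent.Helper21.JQ
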