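import Mathlib
import Pool.Agent.Helper21.JQ.Ram

/-!
# Three factors, odd modulus not divisible by 15 or 21 (module of helper21 for helper7)
-/

set_option autoImplicit false

namespace Pool.Agent.Helper21.JQ

open Finset Pool.Agent.Helper7.JQ

lemma totient_ge10 {o p : ℕ} (ho : 0 < o) (hp : p.Prime) (h5 : 11 ≤ p) (hd : p ∣ o) :
    10 ≤ o.totient := by
  have h1 := Nat.totient_dvd_of_dvd hd
  rw [Nat.totient_prime hp] at h1
  have h2 := Nat.le_of_dvd (Nat.totient_pos.mpr ho) h1
  omega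

/-- the only small prime factor is three -/
def Big (M : ℕ) : Prop := ∀ p, p.Prime → p ∣ M → p = 3 ∨ 11 ≤ p

lemma bd_big {M : ℕ} (hM : 0 < M) (hB : Big M) {x : ℂ} (hx : x ^ M = 1) (hx1 : x ≠ 1) :
    (orderOf x = 3 ∧ cc x = -1 / 2) ∨ (orderOf x ≠ 3 ∧ -1 / 10 ≤ cc x ∧ cc x ≤ 1 / 20) := by
  have ho := orderOf_pos_of hM hx
  have hd := orderOf_dvd_of_pow_eq_one hx
  have h1 : orderOf x ≠ 1 := fun h => hx1 (orderOf_eq_one_iff.mp h)
  by_cases h3 : orderOf x = 3
  · exact Or.inl ⟨h3, cc_three h3⟩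
  refine Or.inr ⟨h3, ?_⟩
  by_cases hs : Squarefree (orderOf x)
  · have hp : ∃ p, p.Prime ∧ 11 ≤ p ∧ p ∣ orderOf x := by
      by_contra hcon
      push Not at hcon
      have hdv : orderOf x ∣ 3 := by
        rw [Nat.dvd_iff_prime_pow_dvd_dvd]
        intro p k hp hpk
        rcases Nat.eq_zero_or_pos k with rfl | hk
        · simp
        have hpo : p ∣ orderOf x := (dvd_pow_self p hk.ne').trans hpk
        have hk1 : k = 1 := by
          by_contra hne
          have h2 : p * p ∣ orderOf x := by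
            rw [← sq]
            exact (pow_dvd_pow p (by omega)).trans hpk
          have := hs p h2
          exact hp.one_lt.ne' (Nat.isUnit_iff.mp this)
        subst hk1
        rw [pow_one]
        rcases hB p hp (hpo.trans hd) with h | h
        · rw [h]
        · exact absurd hpo (hcon p hp h)
      rcases (Nat.dvd_prime Nat.prime_three).mp hdv with h | h
      · exact h1 h
      · exact h3 h
    obtain ⟨p, hp, h11, hpo⟩ := hp
    have h10 := totient_ge10 ho hp h11 hpo
    have hb := abs_le.mp (abs_cc_le (x := x) (by norm_num : 0 < 10) h10)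
    norm_num at hb
    refine ⟨by linarith [hb.1], ?_⟩
    obtain ⟨o', ho'⟩ := hpo
    have hpos : (0 : ℝ) < ((orderOf x).totient : ℝ) := by
      exact_mod_cast (by omega : 0 < (orderOf x).totient)
    rw [ho'] at hs
    have hcop : Nat.Coprime p o' := Nat.coprime_of_squarefree_mul hs
    have ho'pos : 0 < o' := by
      rcases Nat.eq_zero_or_pos o' with h | h
      · rw [h, mul_zero] at ho'; omega
      · exact h
    by_cases hone : o' = 1
    · rw [hone, mul_one] at ho'
      rw [cc, ho', ArithmeticFunction.moebius_apply_prime hp]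
      push_cast
      rw [div_le_iff₀ (by rw [← ho']; exact hpos)]
      have : (0 : ℝ) ≤ (p.totient : ℝ) := Nat.cast_nonneg _
      linarith
    · obtain ⟨q, hq, hqo⟩ := Nat.exists_prime_and_dvd hone
      have hqM : q ∣ M := (hqo.trans (Dvd.intro_left p ho'.symm)).trans hd
      have hq3 : 3 ≤ q := by
        rcases hB q hq hqM with h | h <;> omega
      have h7 : 2 ≤ o'.totient := by
        have h8 := Nat.totient_dvd_of_dvd hqo
        rw [Nat.totient_prime hq] at h8
        have h9 := Nat.le_of_dvd (Nat.totient_pos.mpr ho'pos) h8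
        omega
      have h8 : 20 ≤ (orderOf x).totient := by
        rw [ho', Nat.totient_mul hcop, Nat.totient_prime hp]
        have : 10 ≤ p - 1 := by omega
        nlinarith
      have := abs_le.mp (abs_cc_le (x := x) (by norm_num : 0 < 20) h8)
      norm_num at this
      linarith [this.2]
  · rw [cc_of_not_sq hs]; norm_num

lemma cube_sum {w : ℂ} (hw : w ^ 3 = 1) (hw1 : w ≠ 1) : 1 + w + w ^ 2 = 0 := by
  have h : (w - 1) * (1 + w + w ^ 2) = 0 := by linear_combination hw
  rcases mul_eq_zero.mp h with h1 | h1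
  · exact absurd (sub_eq_zero.mp h1) hw1
  · exact h1

lemma orderOf_cube {w : ℂ} (hw : w ^ 3 = 1) (hw1 : w ≠ 1) : orderOf w = 3 :=
  orderOf_eq_prime hw hw1

lemma cc_cube {M : ℕ} (hM : 0 < M) (h3 : 3 ∣ M) {z w : ℂ} (hz : z ^ M = 1) (hw : w ^ 3 = 1)
    (hw1 : w ≠ 1) : cc z + cc (w * z) + cc (w ^ 2 * z) = 0 := by
  have hwM : w ^ M = 1 := by
    obtain ⟨m, rfl⟩ := h3
    rw [pow_mul, hw, one_pow]
  have hw2M : (w ^ 2) ^ M = 1 := by rw [← pow_mul, mul_comm, pow_mul, hwM, one_pow]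
  have e1 := sum_eq hM hz
  have e2 := sum_eq hM (pow_mul_eq hwM hz)
  have e3 := sum_eq hM (pow_mul_eq hw2M hz)
  have h0 : ∑ a ∈ cop M, z ^ a + ∑ a ∈ cop M, (w * z) ^ a + ∑ a ∈ cop M, (w ^ 2 * z) ^ a = 0 := by
    rw [← Finset.sum_add_distrib, ← Finset.sum_add_distrib]
    refine Finset.sum_eq_zero fun a ha => ?_
    have hca := (Finset.mem_filter.mp ha).2
    have h3a : ¬ 3 ∣ a := by
      intro h
      have : 3 ∣ Nat.gcd a M := Nat.dvd_gcd h h3
      rw [hca] at this
      omega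
    have hwa : w ^ a ≠ 1 := by
      intro h
      apply h3a
      rw [← orderOf_cube hw hw1]
      exact orderOf_dvd_of_pow_eq_one h
    have hwa3 : (w ^ a) ^ 3 = 1 := by rw [← pow_mul, mul_comm, pow_mul, hw, one_pow]
    have h := cube_sum hwa3 hwa
    have h2 : (w ^ 2) ^ a = (w ^ a) ^ 2 := by rw [← pow_mul, ← pow_mul, mul_comm]
    rw [mul_pow, mul_pow, h2]
    linear_combination z ^ a * h
  rw [e1, e2, e3] at h0
  have hφ : (M.totient : ℂ) ≠ 0 := by
    have := Nat.totient_pos.mpr hM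
    exact_mod_cast this.ne'
  have h4 : ((cc z + cc (w * z) + cc (w ^ 2 * z) : ℝ) : ℂ) = 0 := by
    push_cast
    apply mul_left_cancel₀ hφ
    rw [mul_zero, ← h0]; ring
  exact_mod_cast h4

lemma cc_sq {M : ℕ} (h2 : ¬ 2 ∣ M) {z : ℂ} (hz : z ^ M = 1) : cc (z ^ 2) = cc z := by
  have h : (orderOf z).Coprime 2 := by
    rw [Nat.coprime_comm, Nat.Prime.coprime_iff_not_dvd Nat.prime_two]
    intro h
    exact h2 (h.trans (orderOf_dvd_of_pow_eq_one hz))
  rw [cc, cc, Nat.Coprime.orderOf_pow h]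

/-- the value -/
noncomputable def FF (s t u : ℂ) : ℝ :=
  1 - cc s - cc t - cc u + cc (s * t) + cc (s * u) + cc (t * u) - cc (s * t * u)

lemma FF_two {M : ℕ} (hM : 0 < M) (h2 : ¬ 2 ∣ M) (h3 : 3 ∣ M) {s t u : ℂ} (hs : s ^ M = 1)
    (h1 : orderOf (s * t) = 3) (h1' : orderOf (s * u) = 3) : FF s t u = 0 := by
  have hs0 := ne_zero_of_pow hM hs
  set a := s * t with ha
  set b := s * u with hb
  have ha3 : a ^ 3 = 1 := by rw [← h1]; exact pow_orderOf_eq_one _
  have hb3 : b ^ 3 = 1 := by rw [← h1']; exact pow_orderOf_eq_one _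
  have ha1 : a ≠ 1 := by
    intro h; rw [h, orderOf_one] at h1; omega
  have hb1 : b ≠ 1 := by
    intro h; rw [h, orderOf_one] at h1'; omega
  have haM : a ^ M = 1 := by
    obtain ⟨m, rfl⟩ := h3
    rw [pow_mul, ha3, one_pow]
  have hbM : b ^ M = 1 := by
    obtain ⟨m, rfl⟩ := h3
    rw [pow_mul, hb3, one_pow]
  set z := s⁻¹ with hz
  have hzM : z ^ M = 1 := by rw [hz, inv_pow, hs, inv_one]
  have hsz : s * z = 1 := mul_inv_cancel₀ hs0
  have ht : t = a * z := by
    rw [ha]; linear_combination -t * hsz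
  have hu : u = b * z := by
    rw [hb]; linear_combination -u * hsz
  have e1 : cc s = cc z := by rw [hz, cc_inv]
  have e2 : cc (t * u) = cc ((a * b) ^ 2 * z) := by
    have h4 : t * u = ((a * b) ^ 2 * z) ^ 2 := by
      rw [ht, hu]
      linear_combination (-(a * b * z ^ 2) * b ^ 3) * ha3 - (a * b * z ^ 2) * hb3
    rw [h4, cc_sq h2]
    rw [mul_pow, ← pow_mul, mul_comm 2 M, pow_mul, mul_pow, haM, hbM, hzM]; ring
  have e3 : s * t * u = a * b * z := by
    rw [hu, ← ha]; ring
  have hF : FF s t u = - cc z - cc (a * z) - cc (b * z) + cc ((a * b) ^ 2 * z) - cc (a * b * z) := by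
    rw [FF, e2, e1, e3, cc_three h1, cc_three h1', ht, hu]
    ring
  have hab : b = a ∨ b = a ^ 2 := by
    have h5 := cube_sum ha3 ha1
    have h6 := cube_sum hb3 hb1
    have h7 : (b - a) * (b - a ^ 2) = 0 := by linear_combination h6 - b * h5 + ha3
    rcases mul_eq_zero.mp h7 with h | h
    · exact Or.inl (sub_eq_zero.mp h)
    · exact Or.inr (sub_eq_zero.mp h)
  have hc := cc_cube hM h3 hzM ha3 ha1
  rw [hF]
  rcases hab with h | h
  · rw [h]
    have e5 : (a * a) ^ 2 * z = a * z := by linear_combination a * z * ha3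
    have e6 : a * a * z = a ^ 2 * z := by ring
    rw [e5, e6]
    linarith
  · rw [h]
    have e5 : (a * a ^ 2) ^ 2 * z = z := by linear_combination z * (a ^ 3 + 1) * ha3
    have e6 : a * a ^ 2 * z = z := by linear_combination z * ha3
    rw [e5, e6]
    linarith

lemma FF_comm1 (s t u : ℂ) : FF s t u = FF t s u := by
  unfold FF
  rw [mul_comm s t]; ring

lemma FF_comm2 (s t u : ℂ) : FF s t u = FF u t s := by
  unfold FF
  rw [mul_comm s t, mul_comm s u, mul_comm t u, show t * s * u = u * t * s by ring]; ring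

theorem pos3_odd : ∀ (M : ℕ), 0 < M → ¬ 2 ∣ M → ¬ 15 ∣ M → ¬ 21 ∣ M →
    ∀ (s t u : ℂ), s ^ M = 1 → t ^ M = 1 → u ^ M = 1 → s ≠ 1 → t ≠ 1 → u ≠ 1 →
      0 ≤ (∑ a ∈ cop M, (1 - s ^ a) * (1 - t ^ a) * (1 - u ^ a)).re := by
  intro M hM h2 h15 h21 s t u hs ht hu hs1 ht1 hu1
  by_cases h3 : 3 ∣ M
  swap
  · refine s_POS3 M (Or.inl ⟨hM, ?_⟩) s t u hs ht hu hs1 ht1 hu1
    have a1 : Nat.Coprime M 2 := by
      rw [Nat.coprime_comm]; exact (Nat.Prime.coprime_iff_not_dvd Nat.prime_two).mpr h2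
    have a2 : Nat.Coprime M 3 := by
      rw [Nat.coprime_comm]; exact (Nat.Prime.coprime_iff_not_dvd Nat.prime_three).mpr h3
    exact Nat.Coprime.mul_right a1 a2
  have hB : Big M := by
    intro p hp hpM
    by_contra hcon
    push Not at hcon
    obtain ⟨hp3, hp11⟩ := hcon
    have hp2 := hp.two_le
    interval_cases p
    · exact h2 hpM
    · exact hp3 rfl
    · exact absurd hp (by norm_num)
    · exact h15 (Nat.Coprime.mul_dvd_of_dvd_of_dvd (by norm_num : Nat.Coprime 3 5) h3 hpM)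
    · exact absurd hp (by norm_num)
    · exact h21 (Nat.Coprime.mul_dvd_of_dvd_of_dvd (by norm_num : Nat.Coprime 3 7) h3 hpM)
    · exact absurd hp (by norm_num)
    · exact absurd hp (by norm_num)
    · exact absurd hp (by norm_num)
  rw [re_sum3 hM hs ht hu]
  refine mul_nonneg (Nat.cast_nonneg _) ?_
  change 0 ≤ FF s t u
  have hst := pow_mul_eq hs ht
  have hsu := pow_mul_eq hs hu
  have htu := pow_mul_eq ht hu
  by_cases h1 : s * t * u = 1
  · have e1 : s * t = u⁻¹ := eq_inv_of_mul_eq_one_left h1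
    have e2 : s * u = t⁻¹ := eq_inv_of_mul_eq_one_left (by rw [← h1]; ring)
    have e3 : t * u = s⁻¹ := eq_inv_of_mul_eq_one_left (by rw [← h1]; ring)
    rw [FF, h1, cc_one, e1, e2, e3, cc_inv, cc_inv, cc_inv]
    linarith
  have up : ∀ x : ℂ, x ^ M = 1 → x ≠ 1 → cc x ≤ 1 / 20 := by
    intro x hx hx1
    rcases bd_big hM hB hx hx1 with ⟨_, h⟩ | ⟨_, _, h⟩
    · rw [h]; norm_num
    · exact h
  have low : ∀ x : ℂ, x ^ M = 1 → -1 / 2 ≤ cc x := by
    intro x hx
    by_cases h : x = 1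
    · rw [h, cc_one]; norm_num
    · rcases bd_big hM hB hx h with ⟨_, h⟩ | ⟨_, h, _⟩
      · rw [h]
      · linarith
  have low' : ∀ x : ℂ, x ^ M = 1 → orderOf x ≠ 3 → -1 / 10 ≤ cc x := by
    intro x hx hx3
    by_cases h : x = 1
    · rw [h, cc_one]; norm_num
    · rcases bd_big hM hB hx h with ⟨h3, _⟩ | ⟨_, h, _⟩
      · exact absurd h3 hx3
      · exact h
  have n1 := up s hs hs1
  have n2 := up t ht ht1
  have n3 := up u hu hu1
  have n4 := up _ (pow_mul_eq hst hu) h1
  by_cases c1 : orderOf (s * t) = 3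
  · by_cases c2 : orderOf (s * u) = 3
    · exact (FF_two hM h2 h3 hs c1 c2).ge
    · by_cases c3 : orderOf (t * u) = 3
      · rw [FF_comm1]
        exact (FF_two hM h2 h3 ht (by rwa [mul_comm]) c3).ge
      · unfold FF
        linarith [low _ hst, low' _ hsu c2, low' _ htu c3]
  · by_cases c2 : orderOf (s * u) = 3
    · by_cases c3 : orderOf (t * u) = 3
      · rw [FF_comm2]
        exact (FF_two hM h2 h3 hu (by rwa [mul_comm]) (by rwa [mul_comm])).ge
      · unfold FF
        linarith [low' _ hst c1, low _ hsu, low' _ htu c3]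
    · unfold FF
      linarith [low' _ hst c1, low' _ hsu c2, low _ htu]

end Pool.Agent.Helper21.JQ
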